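import Mathlib
import Pool.Agent.Results.MP_7c03a7_pr.DimGtOne

/-!
# Every infinite countable group has a generating measure with a finite critical parameter

The measure is an explicit mixture of uniform measures on finite symmetric sets whose sizes grow
exponentially faster than the weights decay; its isoperimetric dimension is at least four.
-/

set_option autoImplicit false

open MeasureTheory ProbabilityTheory
open scoped ENNReal NNReal Pointwise

namespace Pool.Agent.Results.MP_9aa340_pr.FiniteThreshold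

open Pool.Agent.Results.MP_7c03a7_pr.DimGtOne

section Construction

variable (Γ : Type*) [Group Γ] [Countable Γ] [Infinite Γ]

/-- finite symmetric sets of prescribed minimal size -/
theorem exists_sets (M : ℕ → ℕ) : ∃ F : ℕ → Finset Γ, (∀ k, M k ≤ (F k).card) ∧
    (∀ k, (F k).Nonempty) ∧ (∀ k g, g ∈ F k ↔ g⁻¹ ∈ F k) ∧ ∀ g, ∃ k, g ∈ F k := by
  classical
  obtain ⟨γ, hγ⟩ := exists_surjective_nat Γ
  choose A hA using fun k => Infinite.exists_subset_card_eq Γ (M k)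
  refine ⟨fun k => (insert (γ k) (A k)) ∪ (insert (γ k) (A k))⁻¹, fun k => ?_, fun k => ?_,
    fun k g => ?_, fun g => ?_⟩
  · rw [← hA k]
    exact Finset.card_le_card fun x hx => Finset.mem_union_left _ (Finset.mem_insert_of_mem hx)
  · exact ⟨γ k, Finset.mem_union_left _ (Finset.mem_insert_self _ _)⟩
  · simp only [Finset.mem_union, Finset.mem_inv']
    rw [inv_inv]
    tauto
  · obtain ⟨k, rfl⟩ := hγ g
    exact ⟨k, Finset.mem_union_left _ (Finset.mem_insert_self _ _)⟩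

end Construction

/-- the geometric weights -/
noncomputable def wgt : PMF ℕ := ⟨fun k => (2⁻¹ : ℝ≥0∞) ^ (k + 1), by
  have h : ∑' k : ℕ, (2⁻¹ : ℝ≥0∞) ^ (k + 1) = 1 := by
    simp_rw [pow_succ]
    rw [ENNReal.tsum_mul_right, ENNReal.tsum_geometric]
    have : (1 - (2 : ℝ≥0∞)⁻¹) = 2⁻¹ := ENNReal.one_sub_inv_two
    rw [this, inv_inv]
    exact ENNReal.mul_inv_cancel (by norm_num) (by norm_num)
  rw [← h]
  exact ENNReal.summable.hasSum⟩

theorem wgt_apply (k : ℕ) : wgt k = (2⁻¹ : ℝ≥0∞) ^ (k + 1) := rfl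

variable {Γ : Type*} [Group Γ]

/-- the mixture of the uniform measures -/
noncomputable def mix (F : ℕ → Finset Γ) (hF : ∀ k, (F k).Nonempty) : PMF Γ :=
  wgt.bind fun k => PMF.uniformOfFinset (F k) (hF k)

omit [Group Γ] in
theorem mix_apply (F : ℕ → Finset Γ) (hF : ∀ k, (F k).Nonempty) (g : Γ) :
    mix F hF g = ∑' k, wgt k * PMF.uniformOfFinset (F k) (hF k) g := by
  unfold mix
  rw [PMF.bind_apply]

/-- the generating measure -/
noncomputable def gmu (F : ℕ → Finset Γ) (hF : ∀ k, (F k).Nonempty)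
    (hs : ∀ k g, g ∈ F k ↔ g⁻¹ ∈ F k) (hall : ∀ g, ∃ k, g ∈ F k) : GeneratingMeasure Γ where
  mass := mix F hF
  symm g := by
    rw [mix_apply, mix_apply]
    refine tsum_congr fun k => ?_
    classical
    rw [PMF.uniformOfFinset_apply, PMF.uniformOfFinset_apply]
    by_cases h : g ∈ F k
    · rw [if_pos h, if_pos ((hs k g).1 h)]
    · rw [if_neg h, if_neg (fun h' => h ((hs k g).2 h'))]
  gen := by
    have : (mix F hF).support = Set.univ := by
      rw [Set.eq_univ_iff_forall]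
      intro g
      obtain ⟨k, hk⟩ := hall g
      unfold mix
      rw [PMF.mem_support_bind_iff]
      refine ⟨k, ?_, ?_⟩
      · rw [PMF.mem_support_iff, wgt_apply]
        exact pow_ne_zero _ (by simp)
      · rw [PMF.mem_support_uniformOfFinset_iff]
        exact hk
    rw [this, Subgroup.closure_univ]

/-- the boundary of a finite set is large at every scale -/
theorem boundary_ge (F : ℕ → Finset Γ) (hF : ∀ k, (F k).Nonempty)
    (hs : ∀ k g, g ∈ F k ↔ g⁻¹ ∈ F k) (hall : ∀ g, ∃ k, g ∈ F k) (S : Finset Γ) (k : ℕ)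
    (hk : 2 * S.card ≤ (F k).card) :
    (S.card : ℝ≥0∞) * ((2⁻¹ : ℝ≥0∞) ^ (k + 1) * 2⁻¹) ≤ boundary (gmu F hF hs hall) S := by
  classical
  unfold boundary
  have hcard : ((F k).card : ℝ≥0∞) ≠ 0 := by
    have := (hF k).card_pos
    exact_mod_cast this.ne'
  have key : ∀ g ∈ S, (2⁻¹ : ℝ≥0∞) ^ (k + 1) * 2⁻¹ ≤
      ∑' h : {h : Γ // h ∉ S}, (gmu F hF hs hall).mass (g⁻¹ * (h : Γ)) := by
    intro g _
    set U : Γ → ℝ≥0∞ := fun h => PMF.uniformOfFinset (F k) (hF k) (g⁻¹ * h) with hU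
    have h1 : ∑' h : {h : Γ // h ∉ S}, (2⁻¹ : ℝ≥0∞) ^ (k + 1) * U h ≤
        ∑' h : {h : Γ // h ∉ S}, (gmu F hF hs hall).mass (g⁻¹ * (h : Γ)) := by
      refine ENNReal.tsum_le_tsum fun h => ?_
      show _ ≤ mix F hF (g⁻¹ * (h : Γ))
      rw [mix_apply]
      exact ENNReal.le_tsum (f := fun j => wgt j * PMF.uniformOfFinset (F j) (hF j) (g⁻¹ * (h : Γ))) k
    refine le_trans ?_ h1
    rw [ENNReal.tsum_mul_left]
    gcongr
    -- total mass one
    have h2 : ∑' h : Γ, U h = 1 := by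
      rw [hU]
      exact ((Equiv.mulLeft g⁻¹).tsum_eq (fun y => PMF.uniformOfFinset (F k) (hF k) y)).trans
        (PMF.tsum_coe _)
    have h3 : ∑' h : Γ, U h = ∑ h ∈ S, U h + ∑' h : {h : Γ // h ∉ S}, U h :=
      (ENNReal.sum_add_tsum_compl S U).symm
    have h4 : ∑ h ∈ S, U h ≤ 2⁻¹ := by
      calc ∑ h ∈ S, U h ≤ ∑ h ∈ S, ((F k).card : ℝ≥0∞)⁻¹ := by
            refine Finset.sum_le_sum fun h _ => ?_
            rw [hU]
            simp only [PMF.uniformOfFinset_apply]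
            split_ifs
            · exact le_rfl
            · exact zero_le
        _ = (S.card : ℝ≥0∞) * ((F k).card : ℝ≥0∞)⁻¹ := by rw [Finset.sum_const, nsmul_eq_mul]
        _ ≤ 2⁻¹ := by
            rw [← div_eq_mul_inv, ENNReal.div_le_iff hcard (by simp)]
            have : (2 : ℝ≥0∞) * S.card ≤ (F k).card := by exact_mod_cast hk
            calc (S.card : ℝ≥0∞) = 2⁻¹ * (2 * S.card) := by
                  rw [← mul_assoc, ENNReal.inv_mul_cancel (by norm_num) (by norm_num), one_mul]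
              _ ≤ 2⁻¹ * (F k).card := by gcongr
    rw [h2] at h3
    by_contra hlt
    push Not at hlt
    have h5 : (1 : ℝ≥0∞) < 1 := by
      calc (1 : ℝ≥0∞) = ∑ h ∈ S, U h + ∑' h : {h : Γ // h ∉ S}, U h := h3
        _ ≤ 2⁻¹ + ∑' h : {h : Γ // h ∉ S}, U h := by gcongr
        _ < 2⁻¹ + 2⁻¹ := ENNReal.add_lt_add_left (by simp) hlt
        _ = 1 := ENNReal.inv_two_add_inv_two
    exact lt_irrefl _ h5
  calc (S.card : ℝ≥0∞) * ((2⁻¹ : ℝ≥0∞) ^ (k + 1) * 2⁻¹)
      = ∑ g ∈ S, (2⁻¹ : ℝ≥0∞) ^ (k + 1) * 2⁻¹ := by rw [Finset.sum_const, nsmul_eq_mul]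
    _ ≤ _ := Finset.sum_le_sum key

/-- the isoperimetric dimension is at least four -/
theorem four_le_dim (F : ℕ → Finset Γ) (hF : ∀ k, (F k).Nonempty)
    (hs : ∀ k g, g ∈ F k ↔ g⁻¹ ∈ F k) (hall : ∀ g, ∃ k, g ∈ F k)
    (hc : ∀ k, 2 * 16 ^ k ≤ (F k).card) : 4 ≤ dim (gmu F hF hs hall) := by
  unfold dim
  refine le_sSup ⟨4, by norm_num, ?_, by simp⟩
  refine lt_of_lt_of_le (ENNReal.ofReal_pos.2 (by norm_num : (0 : ℝ) < 1 / 8)) ?_
  refine le_iInf₂ fun S hS => ?_
  have hpos : 0 < S.card := hS.card_pos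
  have hpos' : (0 : ℝ) < S.card := by exact_mod_cast hpos
  have hx : (0 : ℝ) < (S.card : ℝ) ^ ((4 - 1) / 4 : ℝ) := Real.rpow_pos_of_pos hpos' _
  rw [ENNReal.le_div_iff_mul_le (Or.inl (ENNReal.ofReal_pos.2 hx).ne') (Or.inl ENNReal.ofReal_ne_top),
    ← ENNReal.ofReal_mul (by norm_num)]
  set k := Nat.clog 16 S.card with hk
  have h1 : S.card ≤ 16 ^ k := Nat.le_pow_clog (by norm_num) _
  have h2 : 2 * S.card ≤ (F k).card := le_trans (by omega) (hc k)
  refine le_trans ?_ (boundary_ge F hF hs hall S k h2)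
  have h3 : (S.card : ℝ≥0∞) * ((2⁻¹ : ℝ≥0∞) ^ (k + 1) * 2⁻¹)
      = ENNReal.ofReal ((S.card : ℝ) * ((1 / 2) ^ (k + 1) * (1 / 2))) := by
    rw [ENNReal.ofReal_mul hpos'.le, ENNReal.ofReal_natCast, ENNReal.ofReal_mul (by positivity),
      ENNReal.ofReal_pow (by norm_num)]
    have : ENNReal.ofReal (1 / 2) = 2⁻¹ := by
      rw [one_div, ENNReal.ofReal_inv_of_pos (by norm_num)]
      norm_num
    rw [this]
  rw [h3]
  refine ENNReal.ofReal_le_ofReal ?_
  -- `(1/8) n^{3/4} ≤ n 2^{-(k+2)}`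
  have h4 : (2 : ℝ) ^ k ≤ 2 * (S.card : ℝ) ^ (1 / 4 : ℝ) := by
    rcases Nat.eq_zero_or_pos k with h0 | h0
    · rw [h0, pow_zero]
      have : (1 : ℝ) ≤ (S.card : ℝ) ^ (1 / 4 : ℝ) :=
        Real.one_le_rpow (by exact_mod_cast hpos) (by norm_num)
      linarith
    · have h5 : 16 ^ (k - 1) < S.card := by
        have h6 : 1 < S.card := by
          by_contra hcon
          push Not at hcon
          have h7 : S.card = 1 := by omega
          rw [hk, h7] at h0
          simp at h0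
        exact Nat.pow_pred_clog_lt_self (by norm_num) h6
      have h6 : ((2 : ℝ) ^ (k - 1)) ≤ (S.card : ℝ) ^ (1 / 4 : ℝ) := by
        have h7 : ((16 : ℝ) ^ (k - 1)) ≤ S.card := by exact_mod_cast h5.le
        have h8 : ((2 : ℝ) ^ (k - 1)) = ((16 : ℝ) ^ (k - 1)) ^ (1 / 4 : ℝ) := by
          rw [show (16 : ℝ) = 2 ^ 4 by norm_num, ← pow_mul, mul_comm 4, pow_mul,
            ← Real.rpow_natCast (_ ^ _) 4, ← Real.rpow_mul (by positivity)]
          norm_num
        rw [h8]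
        exact Real.rpow_le_rpow (by positivity) h7 (by norm_num)
      obtain ⟨j, hj⟩ : ∃ j, k = j + 1 := ⟨k - 1, by omega⟩
      rw [hj] at h6 ⊢
      simp only [Nat.add_sub_cancel] at h6
      rw [pow_succ]
      linarith
  have h5 : (S.card : ℝ) = (S.card : ℝ) ^ ((4 - 1) / 4 : ℝ) * (S.card : ℝ) ^ (1 / 4 : ℝ) := by
    rw [← Real.rpow_add hpos']
    norm_num
  have h6 : (1 / 2 : ℝ) ^ (k + 1) * (1 / 2) = 1 / (4 * 2 ^ k) := by
    rw [pow_succ, one_div_pow]
    field_simp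
    norm_num
  rw [h6]
  set y : ℝ := (S.card : ℝ) ^ (1 / 4 : ℝ) with hy
  set x : ℝ := (S.card : ℝ) ^ ((4 - 1) / 4 : ℝ) with hxx
  have hy0 : 0 < y := Real.rpow_pos_of_pos hpos' _
  rw [h5, mul_one_div, le_div_iff₀ (by positivity)]
  nlinarith [mul_le_mul_of_nonneg_left h4 hx.le]

/-- **Every infinite countable group has a generating measure with a finite critical parameter.** -/
theorem result (Γ : Type*) [Group Γ] [Countable Γ] [Infinite Γ] :
    ∃ μ : GeneratingMeasure Γ, criticalParameter μ < ⊤ := by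
  obtain ⟨F, h1, h2, h3, h4⟩ := exists_sets Γ fun k => 2 * 16 ^ k
  refine ⟨gmu F h2 h3 h4, Pool.Agent.Results.MP_7c03a7_pr.DimGtOne.result Γ _ ?_⟩
  exact lt_of_lt_of_le (by norm_num) (four_le_dim F h2 h3 h4 h1)

end Pool.Agent.Results.MP_9aa340_pr.FiniteThreshold
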